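import Pool.Agent.COSB.StmtsL

/-! # Row CHZ of squad COSB: words of an invertible integer matrix and of its inverse -/

set_option autoImplicit false

namespace Pool.Agent.COSB.H30

open Pool.Agent.PAR Pool.Agent.COS Pool.Agent.COSB

theorem chz (hE : EnzStmt) : ChzStmt := by
  intro n w u c hu hc
  obtain ⟨_, h2, h3⟩ := hE n w
  obtain ⟨eu, ru⟩ := h3 u hu
  obtain ⟨ec, rc⟩ := h3 c hc
  constructor
  · intro h
    have hUC : (Matrix.of fun i j : Fin n => nz n w u i j) *
        (Matrix.of fun i j : Fin n => nz n w c i j) = 1 := by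
      ext i j
      have h4 := h i i.2 j j.2
      rw [Finset.sum_range] at h4
      rw [Matrix.mul_apply, Matrix.one_apply]
      refine Eq.trans h4 ?_
      by_cases hij : i = j
      · rw [if_pos hij, if_pos (congrArg Fin.val hij)]
      · rw [if_neg hij, if_neg (fun e => hij (Fin.ext e))]
    exact ⟨⟨_, _, hUC, mul_eq_one_comm.1 hUC⟩, fun i j => ⟨ru i j, rc i j⟩, eu.symm,
      ec.symm⟩
  · rintro ⟨U, hR, rfl, rfl⟩
    intro i hi j hj
    rw [Finset.sum_range]
    have h4 : ∀ l : Fin n, nz n w (encZ w U.1) i l * nz n w (encZ w (U⁻¹).1) l j =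
        U.1 ⟨i, hi⟩ l * (U⁻¹).1 l ⟨j, hj⟩ := by
      intro l
      have e1 := h2 U.1 ⟨i, hi⟩ l (hR _ _).1.1 (hR _ _).1.2
      have e2 := h2 (U⁻¹).1 l ⟨j, hj⟩ (hR _ _).2.1 (hR _ _).2.2
      rw [← e1, ← e2]
    rw [Finset.sum_congr rfl (fun l _ => h4 l), ← Matrix.mul_apply]
    have h5 : U.1 * (U⁻¹).1 = 1 := U.mul_inv
    rw [h5, Matrix.one_apply]
    by_cases hij : i = j
    · rw [if_pos hij, if_pos (Fin.ext hij)]
    · rw [if_neg hij, if_neg (fun e => hij (congrArg Fin.val e))]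

end Pool.Agent.COSB.H30

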