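import Pool.Agent.COSB.StmtsA

/-! # Row FRK of squad COSB: frames of a section -/

set_option autoImplicit false

namespace Pool.Agent.COSB.H30

open Pool.Agent.PAR Pool.Agent.COS Pool.Agent.COSB

theorem frk (hF : Pool.Agent.COS.FrmStmt) (hC : Pool.Agent.COS.CrdStmt) (hR : RdkStmt)
    (hH : HmkStmt) : FrkStmt := by
  intro n k hk W hW a a'
  constructor
  · intro h
    have h0 : {t : Fr (k * (n * n)) | IsFrame (Sec2 k W a a') t}.ncard ≠ 0 := by
      intro e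
      rw [e] at h
      exact absurd h (by decide)
    obtain ⟨t, ht⟩ := Set.nonempty_of_ncard_ne_zero h0
    exact ⟨_, ht.mem⟩
  · intro hne
    refine hF _ _ ?_ hne
    obtain ⟨y0, u0, A, A', hu0, hA, hA', _, _⟩ := hne
    have hset : Sec2 k W a a' =
        {y | ∃ u ∈ {u : G2 n k | IsUni (rd u.1) ∧ A' * u * A⁻¹ ∈ W}, crd k u.1 = y} := by
      ext y
      constructor
      · rintro ⟨u, B, B', hu, hB, hB', hw, hy⟩
        have e1 : B = A := Units.ext (hB.trans hA.symm)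
        have e2 : B' = A' := Units.ext (hB'.trans hA'.symm)
        rw [e1, e2] at hw
        exact ⟨u, ⟨hu, hw⟩, hy⟩
      · rintro ⟨u, ⟨hu, hw⟩, hy⟩
        exact ⟨u, A, A', hu, hA, hA', hw, hy⟩
    rw [hset]
    refine hH n k hk _ ?_ (fun u hu => hu.1)
    rintro u ⟨hu, hu'⟩ v ⟨hv, hv'⟩ w ⟨hw, hw'⟩
    constructor
    · obtain ⟨π, hπ⟩ := (hR n k hk).2.2.2.1
      obtain ⟨U, hU, _⟩ := hC n
      have h1 : ∀ x : G2 n k, IsUni (rd x.1) ↔ π x ∈ U := fun x => by rw [hU, hπ]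
      rw [h1] at hu hv hw ⊢
      rw [map_mul, map_mul, map_inv]
      exact U.mul_mem (U.mul_mem hu (U.inv_mem hv)) hw
    · have h2 := hW _ hu' _ hv' _ hw'
      have e : A' * (u * v⁻¹ * w) * A⁻¹ =
          (A' * u * A⁻¹) * (A' * v * A⁻¹)⁻¹ * (A' * w * A⁻¹) := by group
      show A' * (u * v⁻¹ * w) * A⁻¹ ∈ W
      rw [e]
      exact h2

end Pool.Agent.COSB.H30

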