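import Pool.Agent.COSB.StmtsB

/-! # Row RHO of squad COSB: permutation matrices of monomial matrices -/

set_option autoImplicit false

namespace Pool.Agent.COSB.H30

open Pool.Agent.PAR Pool.Agent.COS Pool.Agent.COSB

section
variable {F : Type} [Field F] [Fintype F] {n : ℕ}

/-- the action on the points -/
noncomputable def sg (π : Equiv.Perm (Fin n)) (ζ : Fin n → Fˣ)
    (s : Fin (n * Fintype.card F)) : Fin (n * Fintype.card F) :=
  finProdFinEquiv (π s.divNat, eF F ((ζ s.divNat : F) * (eF F).symm s.modNat))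

theorem dv (i : Fin n) (t : Fin (Fintype.card F)) :
    (finProdFinEquiv (i, t) : Fin (n * Fintype.card F)).divNat = i :=
  congrArg Prod.fst (finProdFinEquiv.symm_apply_apply (i, t))

theorem md (i : Fin n) (t : Fin (Fintype.card F)) :
    (finProdFinEquiv (i, t) : Fin (n * Fintype.card F)).modNat = t :=
  congrArg Prod.snd (finProdFinEquiv.symm_apply_apply (i, t))

theorem ex (r s : Fin (n * Fintype.card F)) (h1 : r.divNat = s.divNat)
    (h2 : r.modNat = s.modNat) : r = s :=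
  finProdFinEquiv.symm.injective (Prod.ext h1 h2)

variable [DecidableEq F]

theorem rho_mon (M : Matrix (Fin n) (Fin n) F) (π : Equiv.Perm (Fin n)) (ζ : Fin n → Fˣ)
    (hM : ∀ i j, M i j = if i = π j then (ζ j : F) else 0) (r s : Fin (n * Fintype.card F)) :
    rho M r s = if r = sg π ζ s then 1 else 0 := by
  unfold rho
  rw [Matrix.of_apply]
  refine if_congr ?_ rfl rfl
  rw [hM]
  constructor
  · rintro ⟨h1, h2⟩
    by_cases h : r.divNat = π s.divNat
    · rw [if_pos h] at h2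
      refine ex _ _ ?_ ?_
      · rw [sg, dv, h]
      · rw [sg, md, ← h2, Equiv.apply_symm_apply]
    · rw [if_neg h] at h1
      exact absurd rfl h1
  · rintro rfl
    rw [sg, dv, md, if_pos rfl, Equiv.symm_apply_apply]
    exact ⟨(ζ s.divNat).ne_zero, rfl⟩

theorem mul_mon (M M' : Matrix (Fin n) (Fin n) F) (π π' : Equiv.Perm (Fin n))
    (ζ ζ' : Fin n → Fˣ) (hM : ∀ i j, M i j = if i = π j then (ζ j : F) else 0)
    (hM' : ∀ i j, M' i j = if i = π' j then (ζ' j : F) else 0) (i k : Fin n) :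
    (M * M') i k = if i = (π * π') k then ((ζ (π' k) * ζ' k : Fˣ) : F) else 0 := by
  rw [Matrix.mul_apply, Finset.sum_eq_single (π' k)]
  · rw [hM, hM', if_pos rfl, Equiv.Perm.mul_apply, Units.val_mul]
    split_ifs
    · rfl
    · rw [zero_mul]
  · intro j _ hj
    rw [hM' j k, if_neg hj, mul_zero]
  · intro h
    exact absurd (Finset.mem_univ _) h

theorem sg_mul (π π' : Equiv.Perm (Fin n)) (ζ ζ' : Fin n → Fˣ)
    (t : Fin (n * Fintype.card F)) :
    sg (π * π') (fun k => ζ (π' k) * ζ' k) t = sg π ζ (sg π' ζ' t) := by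
  refine ex _ _ ?_ ?_
  · rw [sg, sg, sg, dv, dv, dv]
    rfl
  · rw [sg, sg, sg, md, md, md, dv, Equiv.symm_apply_apply, Units.val_mul, mul_assoc]

theorem rho_mul (M M' : Matrix (Fin n) (Fin n) F) (h : IsMon M) (h' : IsMon M') :
    rho (M * M') = rho M * rho M' := by
  obtain ⟨π, ζ, hM⟩ := h
  obtain ⟨π', ζ', hM'⟩ := h'
  ext r t
  rw [rho_mon (M * M') (π * π') (fun k => ζ (π' k) * ζ' k) (mul_mon M M' π π' ζ ζ' hM hM'),
    Matrix.mul_apply, Finset.sum_eq_single (sg π' ζ' t)]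
  · rw [rho_mon M π ζ hM, rho_mon M' π' ζ' hM', if_pos rfl, mul_one, sg_mul]
  · intro s _ hs
    rw [rho_mon M' π' ζ' hM' s t, if_neg hs, mul_zero]
  · intro h
    exact absurd (Finset.mem_univ _) h

theorem mon_one : IsMon (1 : Matrix (Fin n) (Fin n) F) :=
  ⟨1, fun _ => 1, fun i j => by rw [Matrix.one_apply]; rfl⟩

theorem rho_one : rho (1 : Matrix (Fin n) (Fin n) F) = 1 := by
  ext r s
  rw [rho_mon (1 : Matrix (Fin n) (Fin n) F) 1 (fun _ => 1)
    (fun i j => by rw [Matrix.one_apply]; rfl), Matrix.one_apply]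
  refine if_congr ?_ rfl rfl
  have h : sg (1 : Equiv.Perm (Fin n)) (fun _ => (1 : Fˣ)) s = s := by
    refine ex _ _ ?_ ?_
    · rw [sg, dv]
      rfl
    · rw [sg, md, Units.val_one, one_mul, Equiv.apply_symm_apply]
  rw [h]

theorem rho_inj (M M' : Matrix (Fin n) (Fin n) F) (h : IsMon M) (h' : IsMon M')
    (he : rho M = rho M') : M = M' := by
  obtain ⟨π, ζ, hM⟩ := h
  obtain ⟨π', ζ', hM'⟩ := h'
  have h1 : ∀ s, sg π ζ s = sg π' ζ' s := by
    intro s
    by_contra hne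
    have h2 := congrFun (congrFun he (sg π ζ s)) s
    rw [rho_mon M π ζ hM, rho_mon M' π' ζ' hM', if_pos rfl, if_neg hne] at h2
    exact one_ne_zero h2
  have h3 : ∀ j, π j = π' j ∧ (ζ j : F) = ζ' j := by
    intro j
    have h4 := h1 (finProdFinEquiv (j, eF F 1))
    unfold sg at h4
    have h5 := finProdFinEquiv.injective h4
    rw [Prod.mk.injEq, dv, md, Equiv.symm_apply_apply, mul_one, mul_one] at h5
    exact ⟨h5.1, (eF F).injective h5.2⟩
  ext i j
  rw [hM, hM', (h3 j).1, (h3 j).2]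

theorem mon_inv (M : Matrix.GeneralLinearGroup (Fin n) F) (h : IsMon M.1) :
    IsMon (M⁻¹ : Matrix.GeneralLinearGroup (Fin n) F).1 := by
  obtain ⟨π, ζ, hM⟩ := h
  let N : Matrix (Fin n) (Fin n) F := Matrix.of fun i j =>
    if i = π⁻¹ j then (((ζ (π⁻¹ j))⁻¹ : Fˣ) : F) else 0
  have hN : ∀ i j, N i j = if i = π⁻¹ j then (((ζ (π⁻¹ j))⁻¹ : Fˣ) : F) else 0 := fun i j => rfl
  have h1 : N * M.1 = 1 := by
    ext i k
    rw [mul_mon N M.1 π⁻¹ π (fun j => (ζ (π⁻¹ j))⁻¹) ζ hN hM, Matrix.one_apply]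
    refine if_congr ?_ ?_ rfl
    · rw [inv_mul_cancel]
      rfl
    · have h2 : π⁻¹ (π k) = k := Equiv.symm_apply_apply π k
      rw [h2, inv_mul_cancel, Units.val_one]
  have h2 : (M⁻¹ : Matrix.GeneralLinearGroup (Fin n) F).1 = N := by
    have h3 : M.1 * (M⁻¹ : Matrix.GeneralLinearGroup (Fin n) F).1 = 1 := M.mul_inv
    calc (M⁻¹ : Matrix.GeneralLinearGroup (Fin n) F).1
        = (N * M.1) * (M⁻¹ : Matrix.GeneralLinearGroup (Fin n) F).1 := by rw [h1, one_mul]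
      _ = N := by rw [mul_assoc, h3, mul_one]
  rw [h2]
  exact ⟨π⁻¹, fun j => (ζ (π⁻¹ j))⁻¹, hN⟩

theorem mon_mul (M M' : Matrix (Fin n) (Fin n) F) (h : IsMon M) (h' : IsMon M') :
    IsMon (M * M') := by
  obtain ⟨π, ζ, hM⟩ := h
  obtain ⟨π', ζ', hM'⟩ := h'
  exact ⟨π * π', fun k => ζ (π' k) * ζ' k, mul_mon M M' π π' ζ ζ' hM hM'⟩

theorem rho_inv (M : Matrix.GeneralLinearGroup (Fin n) F) (h : IsMon M.1) :
    rho M.1 * rho (M⁻¹ : Matrix.GeneralLinearGroup (Fin n) F).1 = 1 ∧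
      rho (M⁻¹ : Matrix.GeneralLinearGroup (Fin n) F).1 * rho M.1 = 1 := by
  constructor
  · rw [← rho_mul _ _ h (mon_inv M h), ← rho_one]
    exact congrArg rho M.mul_inv
  · rw [← rho_mul _ _ (mon_inv M h) h, ← rho_one]
    exact congrArg rho M.inv_mul

end

theorem rhoRow : RhoStmt := by
  intro F _ _ _ n
  refine ⟨rho_mul, rho_one, rho_inj, ?_⟩
  intro S hS hH
  refine ⟨?_, ?_, ?_⟩
  · rintro A ⟨M1, h1, e1⟩ B ⟨M2, h2, e2⟩ C ⟨M3, h3, e3⟩
    refine ⟨M1 * M2⁻¹ * M3, hH M1 h1 M2 h2 M3 h3, ?_⟩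
    have hB : (B⁻¹ : Gr (n * Fintype.card F)).1 =
        rho (M2⁻¹ : Matrix.GeneralLinearGroup (Fin n) F).1 := by
      have h4 : B.1 * (B⁻¹ : Gr (n * Fintype.card F)).1 = 1 := B.mul_inv
      have h5 := (rho_inv M2 (hS M2 h2)).2
      rw [← e2] at h5
      calc (B⁻¹ : Gr (n * Fintype.card F)).1
          = (rho (M2⁻¹ : Matrix.GeneralLinearGroup (Fin n) F).1 * B.1) *
            (B⁻¹ : Gr (n * Fintype.card F)).1 := by rw [h5, one_mul]
        _ = rho (M2⁻¹ : Matrix.GeneralLinearGroup (Fin n) F).1 := by rw [mul_assoc, h4, mul_one]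
    change A.1 * (B⁻¹ : Gr (n * Fintype.card F)).1 * C.1 =
      rho (M1.1 * (M2⁻¹ : Matrix.GeneralLinearGroup (Fin n) F).1 * M3.1)
    have m1 := hS M1 h1
    have m2 := mon_inv M2 (hS M2 h2)
    have m3 := hS M3 h3
    rw [rho_mul _ _ (mon_mul _ _ m1 m2) m3, rho_mul _ _ m1 m2, e1, hB, e3]
  · rintro ⟨A, M, hM, _⟩
    exact ⟨M, hM⟩
  · rintro ⟨M, hM⟩
    have h := rho_inv M (hS M hM)
    exact ⟨⟨rho M.1, rho (M⁻¹ : Matrix.GeneralLinearGroup (Fin n) F).1, h.1, h.2⟩, M, hM, rfl⟩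

end Pool.Agent.COSB.H30

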